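import Pool.Agent.W792.WA.Stm6

/-!
Project WA, part KB: decay of the one-dimensional kernel in `n`.
-/

set_option autoImplicit false

namespace Pool.Agent.W369.WA.KB

open MeasureTheory Filter Pool.Agent.W792.LL Pool.Agent.W792.WA
open scoped Topology

/-- `2 cos` -/
noncomputable def zz (θ : UnitAddCircle) : ℂ := fourier 1 θ + fourier (-1) θ

theorem zz_eq (θ : UnitAddCircle) : zz θ = ((2 * ((fourier 1 θ : ℂ)).re : ℝ) : ℂ) := by
  unfold zz
  rw [fourier_neg, Complex.add_conj]

theorem zz_cont : Continuous zz := by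
  unfold zz
  exact (fourier 1).continuous.add (fourier (-1)).continuous

theorem norm_four (n : ℤ) (θ : UnitAddCircle) : ‖(fourier n θ : ℂ)‖ = 1 := by
  rw [fourier_apply]
  exact Circle.norm_coe _

theorem zz_norm (θ : UnitAddCircle) : ‖zz θ‖ ≤ 2 := by
  unfold zz
  refine (norm_add_le _ _).trans ?_
  rw [norm_four, norm_four]
  norm_num

theorem int_four_pow : ∀ (j : ℕ) (m : ℤ), j < m.natAbs →
    ∫ θ : UnitAddCircle, fourier m θ * zz θ ^ j ∂AddCircle.haarAddCircle = 0 := by
  intro j
  induction j with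
  | zero =>
    intro m hm
    have hm0 : m ≠ 0 := by
      intro h
      rw [h] at hm
      simp at hm
    simp only [pow_zero, mul_one]
    exact integral_eq_zero_of_add_right_eq_neg (μ := AddCircle.haarAddCircle)
      (fourier_add_half_inv_index hm0 one_pos)
  | succ j ih =>
    intro m hm
    have e : ∀ θ : UnitAddCircle, (fourier m θ : ℂ) * zz θ ^ (j + 1) =
        fourier (m + 1) θ * zz θ ^ j + fourier (m + -1) θ * zz θ ^ j := by
      intro θ
      rw [fourier_add, fourier_add, pow_succ]
      have : zz θ = fourier 1 θ + fourier (-1) θ := rfl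
      rw [mul_comm (zz θ ^ j) (zz θ)]
      nth_rewrite 1 [this]
      ring
    simp_rw [e]
    have hc : ∀ k : ℤ, Continuous fun θ : UnitAddCircle => (fourier k θ : ℂ) * zz θ ^ j :=
      fun k => (fourier k).continuous.mul (zz_cont.pow j)
    have hi : ∀ k : ℤ, Integrable (fun θ : UnitAddCircle => (fourier k θ : ℂ) * zz θ ^ j)
        AddCircle.haarAddCircle :=
      fun k => (hc k).integrable_of_hasCompactSupport (HasCompactSupport.of_compactSpace _)
    rw [integral_add (hi (m + 1)) (hi (m + -1)), ih (m + 1) (by omega), ih (m + -1) (by omega),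
      add_zero]

theorem tail_le (r : ℝ) (hr : 0 ≤ r) (N : ℕ) :
    Real.exp r - ∑ m ∈ Finset.range N, r ^ m / (m.factorial : ℝ) ≤
      Real.exp (4 * r) / 4 ^ N := by
  have h1 : ∀ x : ℝ, HasSum (fun m : ℕ => x ^ m / (m.factorial : ℝ)) (Real.exp x) := by
    intro x
    have := NormedSpace.expSeries_div_hasSum_exp (𝔸 := ℝ) x
    rwa [← Real.exp_eq_exp_ℝ] at this
  have h2 := (h1 r).summable.sum_add_tsum_nat_add N
  rw [(h1 r).tsum_eq] at h2
  have h3 : Real.exp r - ∑ m ∈ Finset.range N, r ^ m / (m.factorial : ℝ) =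
      ∑' i : ℕ, r ^ (i + N) / ((i + N).factorial : ℝ) := by linarith
  have h4 := (h1 (4 * r)).summable.sum_add_tsum_nat_add N
  rw [(h1 (4 * r)).tsum_eq] at h4
  have h5 : 0 ≤ ∑ m ∈ Finset.range N, (4 * r) ^ m / (m.factorial : ℝ) :=
    Finset.sum_nonneg fun m _ => by positivity
  have h6 : ∑' i : ℕ, (4 * r) ^ (i + N) / ((i + N).factorial : ℝ) ≤ Real.exp (4 * r) := by
    linarith
  rw [h3, le_div_iff₀ (by positivity), ← tsum_mul_right]
  refine le_trans ?_ h6
  have hs1 : Summable fun i : ℕ => r ^ (i + N) / ((i + N).factorial : ℝ) :=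
    (summable_nat_add_iff N).2 (h1 r).summable
  have hs2 : Summable fun i : ℕ => (4 * r) ^ (i + N) / ((i + N).factorial : ℝ) :=
    (summable_nat_add_iff N).2 (h1 (4 * r)).summable
  refine (hs1.mul_right (4 ^ N)).tsum_le_tsum ?_ hs2
  intro i
  have h7 : r ^ (i + N) * 4 ^ N ≤ (4 * r) ^ (i + N) := by
    rw [mul_pow, mul_comm]
    refine mul_le_mul_of_nonneg_right ?_ (by positivity)
    exact pow_le_pow_right₀ (by norm_num) (by omega)
  rw [div_mul_eq_mul_div]
  exact div_le_div_of_nonneg_right h7 (by positivity)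

theorem main : S_KB := by
  refine ⟨1, one_pos, fun t n hn => ?_⟩
  rw [one_mul]
  set N : ℕ := n.natAbs with hN
  have hnN : |(n : ℝ)| = (N : ℝ) := by
    rw [hN, ← Int.cast_abs, Int.abs_eq_natAbs]
    simp
  rw [hnN] at hn
  -- the Taylor polynomial
  set P : UnitAddCircle → ℂ := fun θ =>
    ∑ m ∈ Finset.range N, (-(Complex.I * t) * zz θ) ^ m / (m.factorial : ℂ) with hP
  have hPc : Continuous P := by
    rw [hP]
    refine continuous_finsetSum _ fun m _ => ?_
    exact ((continuous_const.mul zz_cont).pow m).div_const _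
  have hexp : Continuous fun θ : UnitAddCircle => Complex.exp (-(Complex.I * t) * zz θ) :=
    Complex.continuous_exp.comp (continuous_const.mul zz_cont)
  have hint : ∀ f : UnitAddCircle → ℂ, Continuous f → Integrable f AddCircle.haarAddCircle :=
    fun f hf => hf.integrable_of_hasCompactSupport (HasCompactSupport.of_compactSpace _)
  have hPint : ∫ θ : UnitAddCircle, fourier n θ * P θ ∂AddCircle.haarAddCircle = 0 := by
    have e : ∀ θ : UnitAddCircle, (fourier n θ : ℂ) * P θ =
        ∑ m ∈ Finset.range N, ((-(Complex.I * t)) ^ m / (m.factorial : ℂ)) *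
          (fourier n θ * zz θ ^ m) := by
      intro θ
      rw [hP]
      simp only
      rw [Finset.mul_sum]
      refine Finset.sum_congr rfl fun m _ => ?_
      rw [mul_pow]
      ring
    simp_rw [e]
    rw [integral_finsetSum]
    · refine Finset.sum_eq_zero fun m hm => ?_
      rw [integral_const_mul, int_four_pow m n (Finset.mem_range.1 hm), mul_zero]
    · intro m _
      exact (hint _ ((fourier n).continuous.mul (zz_cont.pow m))).const_mul _
  have hk : k1 t n = Complex.exp (2 * Complex.I * t) *
      ∫ θ : UnitAddCircle, fourier n θ * (Complex.exp (-(Complex.I * t) * zz θ) - P θ)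
        ∂AddCircle.haarAddCircle := by
    have e1 : ∫ θ : UnitAddCircle, fourier n θ *
        (Complex.exp (-(Complex.I * t) * zz θ) - P θ) ∂AddCircle.haarAddCircle =
        ∫ θ : UnitAddCircle, fourier n θ * Complex.exp (-(Complex.I * t) * zz θ)
          ∂AddCircle.haarAddCircle := by
      simp_rw [mul_sub]
      have i1 : Integrable (fun θ : UnitAddCircle => (fourier n θ : ℂ) *
          Complex.exp (-(Complex.I * t) * zz θ)) AddCircle.haarAddCircle :=
        hint _ ((fourier n).continuous.mul hexp)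
      have i2 : Integrable (fun θ : UnitAddCircle => (fourier n θ : ℂ) * P θ)
          AddCircle.haarAddCircle := hint _ ((fourier n).continuous.mul hPc)
      rw [integral_sub i1 i2, hPint, sub_zero]
    rw [e1, ← integral_const_mul]
    unfold k1
    refine integral_congr_ae (Filter.Eventually.of_forall fun θ => ?_)
    simp only
    rw [mul_left_comm, ← Complex.exp_add]
    congr 2
    rw [zz_eq]
    push_cast
    ring
  rw [hk, norm_mul]
  have h1 : ‖Complex.exp (2 * Complex.I * t)‖ = 1 := by
    have : (2 * Complex.I * t : ℂ) = ((2 * t : ℝ) : ℂ) * Complex.I := by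
      push_cast
      ring
    rw [this, Complex.norm_exp_ofReal_mul_I]
  rw [h1, one_mul]
  have hb : ∀ θ : UnitAddCircle, ‖(fourier n θ : ℂ) *
      (Complex.exp (-(Complex.I * t) * zz θ) - P θ)‖ ≤ (4 / 5 : ℝ) ^ N := by
    intro θ
    rw [norm_mul, norm_four, one_mul]
    have h2 := Complex.norm_exp_sub_sum_le_exp_norm_sub_sum (-(Complex.I * t) * zz θ) N
    refine h2.trans ((tail_le _ (norm_nonneg _) N).trans ?_)
    have h3 : ‖-(Complex.I * t) * zz θ‖ ≤ N / 4 := by
      rw [norm_mul, norm_neg, norm_mul, Complex.norm_I, one_mul, Complex.norm_real,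
        Real.norm_eq_abs]
      have h4 := zz_norm θ
      have h5 : 0 ≤ |t| := abs_nonneg t
      nlinarith
    have h6 : Real.exp (4 * ‖-(Complex.I * t) * zz θ‖) ≤ Real.exp (N : ℝ) :=
      Real.exp_le_exp.2 (by linarith)
    rw [div_le_iff₀ (by positivity), ← mul_pow]
    refine h6.trans ?_
    have h7 : Real.exp (N : ℝ) = Real.exp 1 ^ N := by
      rw [← Real.exp_nat_mul, mul_one]
    rw [h7]
    refine pow_le_pow_left₀ (Real.exp_pos _).le ?_ N
    have := Real.exp_one_lt_d9
    linarith
  have := norm_integral_le_of_norm_le_const (μ := AddCircle.haarAddCircle)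
    (Filter.Eventually.of_forall hb)
  refine this.trans ?_
  rw [probReal_univ, mul_one]

end Pool.Agent.W369.WA.KB
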